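import Pool.Agent.E8helper61.FN.Main

/-!
# An F-noetherian ring that is not directed F-noetherian

Q1 of the problem has a negative answer: there is a ring in which every finite subset is contained in a
noetherian subring, although no noetherian subrings `F(A) ⊇ A`, one for each finite subset `A`, can be
chosen so that `A ⊆ B` implies `F(A) ⊆ F(B)`.

The ring is the trivial extension of a commutative ring `A × ∏_c B_c` (`c` runs through all functions
`ℤ → ℕ`) by a bimodule. Here `A = ℤ[s, δ][1 / (s - n - h δ) : n ∈ ℤ, h ∈ ℕ]`; one summand of the bimodule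
(on which `A` acts from the left through `δ ↦ 0` and from the right through `δ ↦ 0, s ↦ s - 1`) forces a
noetherian subring to contain, for every `n ≥ 0`, an element of `A` with a pole along `s = n + h δ` for
some `h = h(n)`; the summand belonging to `c`, on which the ring
`B_c = ℤ[s, δ][1 / (s - n - h δ) : h ≠ c(n)][y_n : n ∈ ℤ]` acts from the right through
`y_n ↦ 1 / (s - n - c(n) δ)`, forbids that `h(n) = c(n)` for infinitely many `n`.
-/

set_option autoImplicit false

namespace Pool.Agent.Results.MP_56d54d_al.NotDirectedH61

/-- Noetherian means left and right noetherian. (`IsNoetherianRing T`: every left ideal of `T` is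
finitely generated; a left ideal of the opposite ring is a right ideal of `T`.) -/
def Noeth (T : Type) [Ring T] : Prop := IsNoetherianRing T ∧ IsNoetherianRing Tᵐᵒᵖ

/-- Every finite subset is contained in a noetherian subring. -/
def FNoetherian (R : Type) [Ring R] : Prop :=
  ∀ A : Finset R, ∃ S : Subring R, (A : Set R) ⊆ S ∧ Noeth S

/-- The noetherian subrings containing the finite subsets can be chosen monotonically. -/
def DirectedFNoetherian (R : Type) [Ring R] : Prop :=
  ∃ F : Finset R → Subring R,
    (∀ A : Finset R, (A : Set R) ⊆ F A ∧ Noeth (F A)) ∧ ∀ A B : Finset R, A ⊆ B → F A ≤ F B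

theorem result : ∃ (R : Type) (_ : Ring R), FNoetherian R ∧ ¬ DirectedFNoetherian R := by
  refine ⟨E8helper61.FN.Rg, inferInstance, E8helper61.FN.fnoeth, ?_⟩
  rintro ⟨F, h1, h2⟩
  exact E8helper61.FN.not_directed F h1 h2

end Pool.Agent.Results.MP_56d54d_al.NotDirectedH61
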